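import Mathlib
import Pool.Agent.H.MP_033e98_co.I

namespace Pool.Agent.Results.MP_033e98_co.Value

open Finset Classical

/-- positive edge weights with pairwise distinct weighted degrees -/
def Irregular {n : ℕ} (G : SimpleGraph (Fin n)) (w : Sym2 (Fin n) → ℕ) : Prop :=
  (∀ e ∈ G.edgeSet, 1 ≤ w e) ∧
    Function.Injective (fun v => ∑ u ∈ G.neighborFinset v, w s(v, u))

/-- irregularity strength: least bound on the weights of an irregular weighting -/
noncomputable def strength {n : ℕ} (G : SimpleGraph (Fin n)) : ℕ :=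
  sInf {k | ∃ w, Irregular G w ∧ ∀ e ∈ G.edgeSet, w e ≤ k}

/-- number of vertices of degree one -/
noncomputable def leaves {n : ℕ} (G : SimpleGraph (Fin n)) : ℕ :=
  (univ.filter (fun v => G.degree v = 1)).card

open Pool.Agent.H.MP_033e98_co

lemma count {n : ℕ} (G : SimpleGraph (Fin n)) (w : Sym2 (Fin n) → ℕ) (k d : ℕ)
    (h : Irregular G w) (hk : ∀ e ∈ G.edgeSet, w e ≤ k) (A : Finset (Fin n))
    (hA : ∀ v ∈ A, 1 ≤ G.degree v ∧ G.degree v ≤ d) : A.card ≤ d * k := by
  have := card_le_card_of_injOn (s := A) (t := Icc 1 (d * k))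
    (fun v => ∑ u ∈ G.neighborFinset v, w s(v, u)) (by
      intro v hv
      have a := hA v hv
      have e1 := card_nsmul_le_sum (G.neighborFinset v) (fun u => w s(v, u)) 1
        (fun u hu => h.1 _ (by simpa using hu))
      have e2 := sum_le_card_nsmul (G.neighborFinset v) (fun u => w s(v, u)) k
        (fun u hu => hk _ (by simpa using hu))
      rw [SimpleGraph.card_neighborFinset_eq_degree, smul_eq_mul] at e1 e2
      have := Nat.mul_le_mul_right k a.2
      simp only [coe_Icc, Set.mem_Icc]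
      omega) h.2.injOn
  simpa using this

def par (p : ℕ) (v : Fin (2 * p + 2)) : Fin (2 * p + 2) :=
  if v.1 ≤ p + 2 then ⟨v.1 - 1, by omega⟩ else 0

def Sp (p : ℕ) : SimpleGraph (Fin (2 * p + 2)) where
  Adj u v := (u ≠ 0 ∧ par p u = v) ∨ (v ≠ 0 ∧ par p v = u)
  symm := ⟨fun _ _ h => h.symm⟩
  loopless := ⟨fun v h => by
    have : v ≠ 0 ∧ par p v = v := by tauto
    obtain ⟨h1, h2⟩ := this
    have h3 : v.1 ≠ 0 := fun k => h1 (Fin.ext k)
    rw [Fin.ext_iff, par] at h2
    split_ifs at h2
    · simp only at h2; omega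
    · exact h3 h2.symm⟩

lemma par_val (p : ℕ) (v : Fin (2 * p + 2)) :
    (par p v).1 = if v.1 ≤ p + 2 then v.1 - 1 else 0 := by
  rw [par]; split_ifs <;> simp

def SpR (p : ℕ) : Rt (Sp p) 0 where
  par := par p
  rk := fun v => v.1
  lt := fun v hv => by
    have h3 : v.1 ≠ 0 := fun k => hv (Fin.ext k)
    rw [par_val]
    split_ifs <;> omega
  adj := fun _ _ => Iff.rfl

lemma Sp_tree (p : ℕ) : (Sp p).IsTree := by
  rw [SimpleGraph.isTree_iff_connected_and_card]
  constructor
  · have : ∀ m (v : Fin (2 * p + 2)), v.1 = m → (Sp p).Reachable v 0 := by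
      intro m
      induction m using Nat.strong_induction_on with
      | _ m ih =>
        intro v hv
        by_cases k : v = 0
        · rw [k]
        · exact (SimpleGraph.Adj.reachable (Or.inl ⟨k, rfl⟩)).trans
            (ih _ (hv ▸ (SpR p).lt v k) _ rfl)
    exact ⟨fun u v => (this _ u rfl).trans (this _ v rfl).symm⟩
  · have e : (Sp p).edgeFinset = (univ.erase 0).image (fun v => s(v, par p v)) := by
      ext e
      induction e using Sym2.ind with
      | _ u v =>
        simp only [SimpleGraph.mem_edgeFinset, SimpleGraph.mem_edgeSet, mem_image, mem_erase,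
          mem_univ, and_true]
        constructor
        · rintro (h | h)
          · exact ⟨u, h.1, by rw [h.2]⟩
          · exact ⟨v, h.1, by rw [h.2, Sym2.eq_swap]⟩
        · rintro ⟨w, h1, h2⟩
          rw [← SimpleGraph.mem_edgeSet, ← h2]
          exact Or.inl ⟨h1, rfl⟩
    rw [Nat.card_eq_fintype_card, ← SimpleGraph.edgeFinset_card, e, card_image_of_injOn]
    · simp
    · intro a ha b hb e
      simp only [coe_erase, Set.mem_sdiff, Set.mem_singleton_iff] at ha hb
      simp only [Sym2.eq_iff] at e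
      rcases e with e | e
      · exact e.1
      · have h1 : (par p a).1 < a.1 := (SpR p).lt a ha.2
        have h2 : (par p b).1 < b.1 := (SpR p).lt b hb.2
        rw [e.2] at h1
        rw [← e.1] at h2
        omega

lemma mem_ch (p : ℕ) (v w : Fin (2 * p + 2)) : w ∈ (SpR p).ch v ↔
    w.1 ≠ 0 ∧ (if w.1 ≤ p + 2 then w.1 - 1 else 0) = v.1 := by
  rw [Rt.mem_ch, Ne, Fin.ext_iff, Fin.ext_iff, ← par_val]
  rfl

lemma deg (p : ℕ) (hp : 3 ≤ p) (v : Fin (2 * p + 2)) :
    ((Sp p).degree v = 1 ↔ p + 2 ≤ v.1) ∧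
      (v ≠ 0 → 1 ≤ (Sp p).degree v ∧ (Sp p).degree v ≤ 2) := by
  by_cases k : v = 0
  · refine ⟨?_, fun h => absurd k h⟩
    subst k
    rw [(SpR p).deg_root]
    have : 1 < ((SpR p).ch 0).card := one_lt_card.2 ⟨⟨1, by omega⟩, by simp [mem_ch],
      ⟨p + 3, by omega⟩, by simp [mem_ch], by simp⟩
    simp only [Fin.val_zero]
    omega
  · rw [(SpR p).deg k]
    have k' : v.1 ≠ 0 := fun h => k (Fin.ext h)
    have e : ((SpR p).ch v).card ≤ 1 := card_le_one.2 (fun a ha b hb => by
      rw [mem_ch] at ha hb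
      apply Fin.ext
      split_ifs at ha hb <;> omega)
    refine ⟨?_, fun _ => by omega⟩
    rw [Nat.add_eq_right, card_eq_zero, eq_empty_iff_forall_notMem]
    constructor
    · intro h
      by_contra c
      exact h ⟨v.1 + 1, by omega⟩ (by rw [mem_ch]; simp; omega)
    · intro h w hw
      rw [mem_ch] at hw
      split_ifs at hw <;> omega

theorem result (p : ℕ) (hp : 3 ≤ p) :
    IsGreatest {N : ℕ | ∀ n ≤ N, ∀ G : SimpleGraph (Fin n), G.IsTree → leaves G = p →
      strength G = p} (2 * p + 1) := by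
  constructor
  · intro n hn G hG hl
    obtain ⟨w, h1, h2⟩ := main hG hp hl (by simpa using hn)
    refine le_antisymm (Nat.sInf_le ⟨w, ⟨fun e he => (h1 e he).1, h2⟩, fun e he => (h1 e he).2⟩) ?_
    refine le_csInf ⟨p, w, ⟨fun e he => (h1 e he).1, h2⟩, fun e he => (h1 e he).2⟩ ?_
    rintro k ⟨w', a1, a2⟩
    have := count G w' k 1 a1 a2 (univ.filter (fun v => G.degree v = 1)) (by simp; omega)
    rw [← hl, leaves]
    omega
  · intro N hN
    by_contra c
    have hl : leaves (Sp p) = p := by
      rw [leaves, filter_congr (fun v _ => (deg p hp v).1)]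
      have : (univ.filter (fun v : Fin (2 * p + 2) => p + 2 ≤ v.1)) = Ici ⟨p + 2, by omega⟩ := by
        ext v; simp [Fin.le_def]
      rw [this, Fin.card_Ici]
      simp only
      omega
    have h := hN (2 * p + 2) (by omega) (Sp p) (Sp_tree p) hl
    have ne : {k | ∃ w, Irregular (Sp p) w ∧ ∀ e ∈ (Sp p).edgeSet, w e ≤ k}.Nonempty := by
      by_contra k
      rw [strength, Set.not_nonempty_iff_eq_empty.1 k] at h
      simp at h
      omega
    obtain ⟨w, a1, a2⟩ := Nat.sInf_mem ne
    have := count (Sp p) w _ 2 a1 a2 (univ.erase 0) (fun v hv => (deg p hp v).2 (mem_erase.1 hv).1)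
    rw [strength] at h
    rw [h] at this
    simp at this

end Pool.Agent.Results.MP_033e98_co.Value
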